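import Pool.Agent.H66.XP.TH

/-!
# Exponential time in EQP: targets, part I (protocols with advice)
-/

set_option autoImplicit false

namespace Pool.Agent.H66.XP

open Finset Pool.Agent.H6.NB Pool.Agent.H70.OQ Pool.Agent.H70.EH Pool.Agent.H70.EI Pool.Agent.H78.XQ
open Pool.Agent.H66.IP (Local ins sp dm IsZ scl)
open Pool.Agent.H66.IQ Pool.Agent.H66.AV

/-- SUY: the expectation of the test function for all tables at once, uniformly in the protocols. -/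
def T_SUY : Prop := ∀ (V : ℕ → Exq) (k : ℕ), ∃ n₁, ∀ n ≥ n₁, ∀ G : List Bool → Prot k,
  (∀ x : Fin n → Bool, (G (List.ofFn x)).Within (2 ^ (n / 16))) →
  ∃ A C : (Fin n → Bool) → Prot k,
    (∀ (Q : ((Fin n → Bool) → Nn n k → Bool) → List Bool → Bool) (z : Wn n k),
      0 ≤ tst ((1 / 2) ^ (n / 64)) A C Q z ∧
      ((∀ x, List.ofFn x ∈ alang k (Q (tbl z)) ↔ (z x).1 = true) →
        tst ((1 / 2) ^ (n / 64)) A C Q z < 1 →
        (rights G (Q (tbl z)) n : ℝ) ≤ (1 / 2 + (1 / 2) ^ (n / 64)) * 2 ^ n)) ∧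
    ∀ (M : ℕ) (hk : k < M) (hn : n < M) (E : Finset (ℕ × List Bool))
      (O : (∀ p : {a // a ∈ E}, Cp V p.1) → (List Bool → Bool) → List Bool → Bool),
      IsZ (dm (lo V)) E O →
      ∑ z : Za M, ∑ B, ∑ P, wY V E O (gzx M z) B P *
        tst ((1 / 2) ^ (n / 64)) A C (fun T => O P (ovl n k (gzx M z) T)) (z (⟨k, hk⟩, ⟨n, hn⟩)) ≤
      Fintype.card (Za M) * nC V E * (1 / 2) ^ (n / 100)

/-- FMZ: the oracle for finitely many requirements. -/
def T_FMZ : Prop := ∀ (V : ℕ → Exq) (G : ℕ → (k : ℕ) × (List Bool → List Bool → Prot k)),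
  (∀ j, ∃ n₀, ∀ a x : List Bool, n₀ ≤ x.length → 200 * a.length ≤ x.length →
    ((G j).2 a x).Within (2 ^ (x.length / 16))) →
  ∃ N : ℕ → ℕ, ∀ M : ℕ, ∃ O : List Bool → Bool,
    (∀ p, (sp (lo V) p).length ≤ M → GoodX V p O) ∧
    ∀ j < M, ∀ n < M, N j ≤ n → ∀ a : List Bool, 200 * a.length ≤ n →
      (rights ((G j).2 a) O n : ℝ) ≤ (1 / 2 + (1 / 2) ^ (n / 64)) * 2 ^ n

/-- FI8: the theorem. -/
def T_FI8 : Prop := ∀ (V : ℕ → Exq) (G : ℕ → (k : ℕ) × (List Bool → List Bool → Prot k)),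
  (∀ j, ∃ n₀, ∀ a x : List Bool, n₀ ≤ x.length → 200 * a.length ≤ x.length →
    ((G j).2 a x).Within (2 ^ (x.length / 16))) →
  ∃ O : List Bool → Bool,
    (∀ i x, (((V i).tree x).eval O = true → (exact (ins (V i).c i x)).prob O = 1) ∧
      (((V i).tree x).eval O = false → (exact (ins (V i).c i x)).prob O = 0)) ∧
    ∀ j, ∃ n₀, ∀ n ≥ n₀, ∀ a : List Bool, 200 * a.length ≤ n →
      (rights ((G j).2 a) O n : ℝ) ≤ (1 / 2 + (1 / 2) ^ (n / 64)) * 2 ^ n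

end Pool.Agent.H66.XP
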