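import Pool.Agent.H66.XP.TI

/-!
# Exponential time in EQP: row FI8 (all requirements at once, by compactness)
-/

set_option autoImplicit false

namespace Pool.Agent.H66.XP

open Finset Pool.Agent.H6.NB Pool.Agent.H70.OQ Pool.Agent.H70.EH Pool.Agent.H70.EI
open Pool.Agent.H78.XQ Pool.Agent.H66.IQ Pool.Agent.H66.AV
open Pool.Agent.H66.IP (ins sp dm scl)

/-- the requirement with the number `i` -/
private def fi8D (i : ℕ) : Option ((ℕ × List Bool) ⊕ (ℕ × ℕ)) := Encodable.decode i

private theorem fi8D_encode (z : (ℕ × List Bool) ⊕ (ℕ × ℕ)) :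
    fi8D (Encodable.encode z) = some z := Encodable.encodek z

/-- the conditions -/
private def fi8C (V : ℕ → Exq)
    (G : ℕ → (k : ℕ) × (List Bool → List Bool → Prot k)) (N : ℕ → ℕ) (i : ℕ)
    (O : List Bool → Bool) : Prop :=
  (∀ p, fi8D i = some (Sum.inl p) → GoodX V p O) ∧
  ∀ j n, fi8D i = some (Sum.inr (j, n)) → N j ≤ n → ∀ a : List Bool, 200 * a.length ≤ n →
    (rights ((G j).2 a) O n : ℝ) ≤ (1 / 2 + (1 / 2) ^ (n / 64)) * 2 ^ n

theorem pf_FI8 (hFMZ : T_FMZ) (hCPT : T_CPT) (hGDX : T_GDX) (hRLO : T_RLO) (hEXY : T_EXY) :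
    T_FI8 := by
  intro V G hG
  obtain ⟨N, hN⟩ := hFMZ V G hG
  have hloc : ∀ i, ∃ L, ∀ O O' : List Bool → Bool, (∀ w, w.length ≤ L → O w = O' w) →
      fi8C V G N i O → fi8C V G N i O' := by
    intro i
    rcases h : fi8D i with _ | (p | ⟨j, n⟩)
    · refine ⟨0, fun O O' _ _ => ⟨fun p hp => ?_, fun j n hj => ?_⟩⟩
      · rw [h] at hp; exact absurd hp (by simp)
      · rw [h] at hj; exact absurd hj (by simp)
    · obtain ⟨L, hL⟩ := hGDX V p
      refine ⟨L, fun O O' hO hC => ⟨fun p' hp => ?_, fun j n hj => ?_⟩⟩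
      · have hp' := hp
        rw [h] at hp'
        have h1 : p = p' := by simpa using hp'
        rw [← h1]
        exact hL O O' hO (hC.1 p h)
      · rw [h] at hj; exact absurd hj (by simp)
    · obtain ⟨L, hL⟩ : ∃ L, ∀ a : List Bool, 200 * a.length ≤ n → ∀ O O' : List Bool → Bool,
          (∀ w, w.length ≤ L → O w = O' w) → rights ((G j).2 a) O n = rights ((G j).2 a) O' n := by
        choose f hf using fun a => hRLO (G j).1 ((G j).2 a) n
        have hF : {a : List Bool | a.length ≤ n}.Finite := List.finite_length_le Bool n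
        obtain ⟨L, hL⟩ : ∃ L, ∀ a ∈ hF.toFinset, f a ≤ L :=
          ⟨hF.toFinset.sup f, fun a ha => Finset.le_sup ha⟩
        refine ⟨L, fun a ha O O' hO => hf a O O' fun w hw => hO w (hw.trans (hL a ?_))⟩
        rw [Set.Finite.mem_toFinset]
        show a.length ≤ n
        omega
      refine ⟨L, fun O O' hO hC => ⟨fun p hp => ?_, fun j' n' hj hn a ha => ?_⟩⟩
      · rw [h] at hp; exact absurd hp (by simp)
      · have hj' := hj
        rw [h] at hj'
        have h1 : j = j' ∧ n = n' := by simpa using hj'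
        obtain ⟨rfl, rfl⟩ := h1
        rw [← hL a ha O O' hO]
        exact hC.2 j n h hn a ha
  have hfin : ∀ M, ∃ O, ∀ i < M, fi8C V G N i O := by
    intro M
    obtain ⟨M', hM'⟩ : ∃ M' : ℕ, ∀ i < M, (∀ p, fi8D i = some (Sum.inl p) →
        (sp (lo V) p).length ≤ M') ∧ ∀ j n, fi8D i = some (Sum.inr (j, n)) → j < M' ∧ n < M' := by
      induction M with
      | zero => exact ⟨0, fun i hi => absurd hi (Nat.not_lt_zero i)⟩
      | succ m ih =>
        obtain ⟨M₁, h₁⟩ := ih
        obtain ⟨M₂, h₂⟩ : ∃ M₂ : ℕ, (∀ p, fi8D m = some (Sum.inl p) →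
            (sp (lo V) p).length ≤ M₂) ∧ ∀ j n, fi8D m = some (Sum.inr (j, n)) →
              j < M₂ ∧ n < M₂ := by
          rcases h : fi8D m with _ | (p | ⟨j, n⟩)
          · exact ⟨0, fun p hp => absurd hp (by simp), fun j n hj => absurd hj (by simp)⟩
          · refine ⟨(sp (lo V) p).length, fun p' hp => ?_, fun j n hj => absurd hj (by simp)⟩
            have h1 : p = p' := by simpa using hp
            rw [h1]
          · refine ⟨max j n + 1, fun p hp => absurd hp (by simp), fun j' n' hj => ?_⟩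
            have h1 : j = j' ∧ n = n' := by simpa using hj
            obtain ⟨rfl, rfl⟩ := h1
            constructor <;> omega
        refine ⟨max M₁ M₂, fun i hi => ?_⟩
        rcases Nat.lt_succ_iff_lt_or_eq.1 hi with hlt | rfl
        · refine ⟨fun p hp => ((h₁ i hlt).1 p hp).trans (le_max_left _ _), fun j n hj => ?_⟩
          have := (h₁ i hlt).2 j n hj
          omega
        · refine ⟨fun p hp => (h₂.1 p hp).trans (le_max_right _ _), fun j n hj => ?_⟩
          have := h₂.2 j n hj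
          omega
    obtain ⟨O, hO1, hO2⟩ := hN M'
    refine ⟨O, fun i hi => ⟨fun p hp => hO1 p ((hM' i hi).1 p hp), fun j n hj hn => ?_⟩⟩
    obtain ⟨h3, h4⟩ := (hM' i hi).2 j n hj
    exact hO2 j h3 n h4 hn
  obtain ⟨O, hO⟩ := hCPT (fi8C V G N) hloc hfin
  refine ⟨O, ?_, ?_⟩
  · intro i x
    exact hEXY V i x O ((hO (Encodable.encode (Sum.inl (i, x) :
      (ℕ × List Bool) ⊕ (ℕ × ℕ)))).1 (i, x) (fi8D_encode _))
  · intro j
    refine ⟨N j, fun n hn => ?_⟩
    exact (hO (Encodable.encode (Sum.inr (j, n) : (ℕ × List Bool) ⊕ (ℕ × ℕ)))).2 j n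
      (fi8D_encode _) hn

end Pool.Agent.H66.XP
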