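import Pool.Agent.H1.XP.GLX
import Pool.Agent.H1.XP.UNI
import Pool.Agent.H13.XP.MSX
import Pool.Agent.H19.XP.HYB
import Pool.Agent.H19.XP.WMX
import Pool.Agent.H27.XP.CNX
import Pool.Agent.H27.XP.GZX
import Pool.Agent.H31.XP.MRS
import Pool.Agent.H32.XP.HYX
import Pool.Agent.H4.XP.PFX
import Pool.Agent.H40.XP.NU2
import Pool.Agent.H46.XP.HTN
import Pool.Agent.H49.XP.HIT
import Pool.Agent.H5.XP.HYM
import Pool.Agent.H51.XP.NUC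
import Pool.Agent.H63.XP.EXY
import Pool.Agent.H63.XP.GDX
import Pool.Agent.H66.AV.All
import Pool.Agent.H66.XP.FI8
import Pool.Agent.H66.XP.FMZ
import Pool.Agent.H66.XP.REX
import Pool.Agent.H66.XP.SUY
import Pool.Agent.H66.XP.WEC
import Pool.Agent.H72.XP.KS2
import Pool.Agent.H80.XP.VWX
import Pool.Agent.H88.XP.GWK
import Pool.Agent.H88.XP.MKX
import Pool.Agent.H89.XP.QDP
import Pool.Agent.H91.XP.SYC
import Pool.Agent.H92.XP.CLS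
import Pool.Agent.H95.XP.BFC
import Pool.Agent.H97.XP.BLC
import Pool.Agent.H97.XP.PHZ

/-!
# Assembly: exponential time in EQP, and protocols which are not better than guessing
-/

set_option autoImplicit false

namespace Pool.Agent.H66.XP

theorem qf_CLS : T_CLS := Pool.Agent.H92.XP.pf_CLS

theorem qf_KS2 : T_KS2 := Pool.Agent.H72.XP.pf_KS2 qf_CLS

theorem qf_GWK : T_GWK := Pool.Agent.H88.XP.pf_GWK qf_KS2 Pool.Agent.H66.IQ.pf_GWA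

theorem qf_SYC : T_SYC := Pool.Agent.H91.XP.pf_SYC Pool.Agent.H66.IP.pf_SYX
  Pool.Agent.H70.EI.pf_MUV_EH Pool.Agent.H70.EI.pf_PHB_NB

theorem qf_WEC : T_WEC := Pool.Agent.H66.XP.pf_WEC Pool.Agent.H78.XQ.pf_ITG
  Pool.Agent.H78.XQ.pf_NUX

theorem qf_MRS : T_MRS := Pool.Agent.H31.XP.pf_MRS Pool.Agent.H70.EI.pf_MUV_EH qf_WEC

theorem qf_BLC : T_BLC := Pool.Agent.H97.XP.pf_BLC qf_MRS qf_SYC Pool.Agent.H66.IP.pf_CPU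

theorem qf_NUC : T_NUC := Pool.Agent.H51.XP.pf_NUC

theorem qf_BFC : T_BFC := Pool.Agent.H95.XP.pf_BFC Pool.Agent.H66.IQ.pf_EVS qf_BLC
  Pool.Agent.H66.IQ.pf_OND qf_GWK qf_NUC

theorem qf_MSX : T_MSX := Pool.Agent.H13.XP.pf_MSX qf_MRS qf_SYC Pool.Agent.H70.EI.pf_MUV_EH

theorem qf_UNI : T_UNI := Pool.Agent.H1.XP.pf_UNI

theorem qf_HYM : T_HYM := Pool.Agent.H5.XP.pf_HYM

theorem qf_HYX : T_HYX := Pool.Agent.H32.XP.pf_HYX qf_HYM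

theorem qf_QDP : T_QDP := Pool.Agent.H89.XP.pf_QDP

theorem qf_CNX : T_CNX := Pool.Agent.H27.XP.pf_CNX

theorem qf_MKX : T_MKX := Pool.Agent.H88.XP.pf_MKX qf_QDP qf_CNX Pool.Agent.H66.IP.pf_IZU
  Pool.Agent.H66.IP.pf_SPF

theorem qf_VWX : T_VWX := Pool.Agent.H80.XP.pf_VWX qf_QDP

theorem qf_GLX : T_GLX := Pool.Agent.H1.XP.pf_GLX

theorem qf_WMX : T_WMX := Pool.Agent.H19.XP.pf_WMX qf_MSX qf_HYM qf_MKX qf_CNX
  Pool.Agent.H66.IP.pf_SPF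

theorem qf_HYB : T_HYB := Pool.Agent.H19.XP.pf_HYB qf_HYX qf_MSX qf_UNI qf_MKX qf_CNX
  Pool.Agent.H66.IP.pf_SPF

theorem qf_PFX : T_PFX := Pool.Agent.H4.XP.pf_PFX qf_BFC Pool.Agent.H66.IQ.pf_PTR
  Pool.Agent.H66.AV.pf_TPR Pool.Agent.H66.IP.pf_IZU Pool.Agent.H66.IP.pf_SPF

theorem qf_PHZ : T_PHZ := Pool.Agent.H97.XP.pf_PHZ

theorem qf_GZX : T_GZX := Pool.Agent.H27.XP.pf_GZX Pool.Agent.H66.AV.pf_AST

theorem qf_HTN : T_HTN := Pool.Agent.H46.XP.pf_HTN qf_WMX qf_MKX qf_GLX qf_GZX qf_PHZ qf_QDP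
  qf_CNX Pool.Agent.H66.AV.pf_AST

theorem qf_HIT : T_HIT := Pool.Agent.H49.XP.pf_HIT qf_HTN qf_GZX qf_CNX qf_WMX

theorem qf_NU2 : T_NU2 := Pool.Agent.H40.XP.pf_NU2

theorem qf_REX : T_REX := Pool.Agent.H66.XP.pf_REX qf_PFX qf_WMX qf_GLX qf_HYB
  Pool.Agent.H66.AV.pf_ID1 Pool.Agent.H66.AV.pf_ID2 Pool.Agent.H66.AV.pf_OVL

theorem qf_SUY : T_SUY := Pool.Agent.H66.XP.pf_SUY qf_REX qf_NU2 qf_GZX
  Pool.Agent.H66.AV.pf_NUM Pool.Agent.H66.AV.pf_POW Pool.Agent.H66.AV.pf_AMP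
  Pool.Agent.H66.AV.pf_RCT Pool.Agent.H66.AV.pf_OVL

theorem qf_FMZ : T_FMZ := Pool.Agent.H66.XP.pf_FMZ qf_SUY qf_WMX qf_HIT qf_VWX qf_GZX
  Pool.Agent.H66.IP.pf_SPF Pool.Agent.H66.IP.pf_ISZ Pool.Agent.H66.AV.pf_ALG
  Pool.Agent.H66.AV.pf_OVL

theorem qf_GDX : T_GDX := Pool.Agent.H63.XP.pf_GDX qf_QDP

theorem qf_EXY : T_EXY := Pool.Agent.H63.XP.pf_EXY Pool.Agent.H78.XQ.pf_EXA

theorem qf_FI8 : T_FI8 := Pool.Agent.H66.XP.pf_FI8 qf_FMZ Pool.Agent.H66.AV.pf_CPT qf_GDX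
  Pool.Agent.H66.AV.pf_RLO qf_EXY

end Pool.Agent.H66.XP
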