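import Pool.Agent.H66.AV.Stmt

/-!
# Exponential time in EQP, and protocols which are not better than guessing: definitions

The decision trees `DT` over an oracle, the machines `Machine k`, the exact quantum algorithm `exact` and
the strings `ins` are those of `Pool.Agent.H66.IP.Stmt` and the files it imports; the protocols `Prot k`
are those of `Pool.Agent.H66.IQ.Stmt`, the languages `alang k O` and the number `rights G O n` those of
`Pool.Agent.H66.AV.Stmt`.
-/

set_option autoImplicit false

namespace Pool.Agent.H66.XP

open Pool.Agent.H6.NB

/-- A language which is decided relative to an oracle by exponentially many adaptive queries of any
length: for each input `x` a decision tree over the oracle with at most `2 ^ (|x| ^ c + c)` queries. For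
example: an oracle machine which runs in exponential time, or one with arbitrary computing power which
queries only strings of polynomial length. -/
structure Exq where
  c : ℕ
  tree : List Bool → DT
  depth_le : ∀ x, (tree x).depth ≤ 2 ^ (x.length ^ c + c)

end Pool.Agent.H66.XP
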