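import Pool.Agent.H66.AV.TF
import Pool.Agent.H66.XP.Stmt

/-!
# Exponential time in EQP, and protocols which are not better than guessing: definitions for the proof
-/

set_option autoImplicit false

namespace Pool.Agent.H66.XP

open Finset Pool.Agent.H6.NB Pool.Agent.H70.OQ Pool.Agent.H70.EH Pool.Agent.H70.EI Pool.Agent.H78.XQ
open Pool.Agent.H66.IP (Local ins sp dm IsZ scl)
open Pool.Agent.H66.IQ Pool.Agent.H66.AV

/-! ### Blocks -/

/-- The contents of a block: copies and correction string. -/
abbrev Bc (q l n : ℕ) : Type := ((Fin (2 * l) → Bool) → VV q → Bool) × ((Fin n → Bool) → Bool)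

/-- A mask: some of the copies and some of the places of the correction string. -/
abbrev Mk (l n : ℕ) : Type := Finset (Fin (2 * l) → Bool) × Finset (Fin n → Bool)

/-- The contents `B` and `c` agree on the mask. -/
def Ag {q l n : ℕ} (K : Mk l n) (B c : Bc q l n) : Prop :=
  (∀ u ∈ K.1, c.1 u = B.1 u) ∧ ∀ z ∈ K.2, c.2 z = B.2 z

/-- The copies `P` say the bit `b` clearly. -/
def SayC {U : Type} [Fintype U] (q l : ℕ) (b : Bool) (P : U → VV q → Bool) : Prop :=
  (b = false → avg q P ≤ 2 / 2 ^ l) ∧ (b = true → eps2 q ^ 2 / 10 ≤ avg q P)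

/-- The block says the answer `b`. -/
def OkC (q l R n : ℕ) (b : Bool) (c : Bc q l n) : Prop := SayC q l b c.1 ∧ Fit q R n b c.1 c.2

/-- The fixed places of the correction string. -/
def kp {q l n : ℕ} (K : Mk l n) (B : Bc q l n) : (Fin n → Bool) → Option Bool :=
  fun z => if z ∈ K.2 then some (B.2 z) else none

/-- The copies in `K` are replaced by those of `B`. -/
def ov {q l : ℕ} (K : Finset (Fin (2 * l) → Bool)) (B P : (Fin (2 * l) → Bool) → VV q → Bool) :
    (Fin (2 * l) → Bool) → VV q → Bool :=
  fun u => if u ∈ K then B u else P u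

open Classical in
/-- The distribution of the blocks with the answer `b` which agree with `B` on the mask. -/
noncomputable def mX (q l R n : ℕ) (b : Bool) (K : Mk l n) (B c : Bc q l n) : ℝ :=
  if OkC q l R n b c ∧ Ag K B c then
    (∏ u ∈ univ \ K.1, mv b q (c.1 u)) / (ws (kp K B) (nt c.2)).card else 0

open Classical in
/-- The uniform distribution of the blocks which agree with `B` on the mask. -/
noncomputable def m0X (q l n : ℕ) (K : Mk l n) (B c : Bc q l n) : ℝ :=
  if Ag K B c then (∏ u ∈ univ \ K.1, mv false q (c.1 u)) / 2 ^ (2 ^ n - K.2.card) else 0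

/-! ### Machines and masks -/

/-- The local languages with the same exponents; they serve only for the positions of the blocks. -/
def lo (V : ℕ → Exq) : ℕ → Local := fun i =>
  { c := (V i).c, acc := fun _ _ => False, loc := fun _ _ _ _ => Iff.rfl }

/-- The contents of the block of `p`. -/
abbrev Cp (V : ℕ → Exq) (p : ℕ × List Bool) : Type := CP (dm (lo V)) p

/-- The masks of the block of `p`. -/
abbrev Mp (V : ℕ → Exq) (p : ℕ × List Bool) : Type := Mk (sp (lo V) p).length (wln (sp (lo V) p))

/-- The strings which are queried by the decision tree. -/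
def qd (O : List Bool → Bool) : DT → List (List Bool)
  | .leaf _ => []
  | .node w l r => w :: if O w then qd O r else qd O l

/-- The distribution of the contents of the block of `p`. -/
noncomputable def mXp (V : ℕ → Exq) (p : ℕ × List Bool) (b : Bool) (K : Mp V p) (B c : Cp V p) : ℝ :=
  mX (qs (sp (lo V) p)) (sp (lo V) p).length (rns (sp (lo V) p)) (wln (sp (lo V) p)) b K B c

/-- The uniform distribution of the contents of the block of `p`. -/
noncomputable def m0Xp (V : ℕ → Exq) (p : ℕ × List Bool) (K : Mp V p) (B c : Cp V p) : ℝ :=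
  m0X (qs (sp (lo V) p)) (sp (lo V) p).length (wln (sp (lo V) p)) K B c

/-- The mask is small. -/
def Sm (V : ℕ → Exq) (p : ℕ × List Bool) (K : Mp V p) : Prop :=
  K.1.card ≤ 2 ^ (2 * scl (lo V) p) ∧ K.2.card ≤ 2 ^ (2 * scl (lo V) p)

/-- The block of the instance `p` says the answer of the instance. -/
def GoodX (V : ℕ → Exq) (p : ℕ × List Bool) (O : List Bool → Bool) : Prop :=
  OkC (qs (sp (lo V) p)) (sp (lo V) p).length (rns (sp (lo V) p)) (wln (sp (lo V) p))
    (((V p.1).tree p.2).eval O) (cps O (sp (lo V) p), cst O (sp (lo V) p))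

open Classical in
/-- The oracle `g` in which all strings of tables for lengths at least `s` have the value `true`. -/
noncomputable def gd (s : ℕ) (g : List Bool → Bool) (w : List Bool) : Bool :=
  if ∃ (n k : ℕ) (x : Fin n → Bool) (q : Nn n k), s ≤ n ∧ w = astr n k x q then true else g w

section

variable (V : ℕ → Exq) (E : Finset (ℕ × List Bool))
    (O : (∀ p : {a // a ∈ E}, Cp V p.1) → (List Bool → Bool) → List Bool → Bool)

/-- The contents which a machine of scale `s` sees: the contents `P` of the blocks of smaller scale, the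
contents `B` of the others. -/
def mxc (s : ℕ) (P B : ∀ p : {a // a ∈ E}, Cp V p.1) : ∀ p : {a // a ∈ E}, Cp V p.1 :=
  fun p => if scl (lo V) p.1 < s then P p else B p

/-- The oracle which the machine of the instance `a` sees. -/
noncomputable def vw (g : List Bool → Bool) (P B : ∀ p : {a // a ∈ E}, Cp V p.1)
    (a : ℕ × List Bool) : List Bool → Bool :=
  O (mxc V E (scl (lo V) a) P B) (gd (3 * scl (lo V) a) g)

/-- The answer of the instance `a`. -/
noncomputable def an (g : List Bool → Bool) (P B : ∀ p : {a // a ∈ E}, Cp V p.1)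
    (a : ℕ × List Bool) : Bool := ((V a.1).tree a.2).eval (vw V E O g P B a)

/-- The strings which are queried by the machine of the instance `a`. -/
noncomputable def tq (g : List Bool → Bool) (P B : ∀ p : {a // a ∈ E}, Cp V p.1)
    (a : ℕ × List Bool) : List (List Bool) := qd (vw V E O g P B a) ((V a.1).tree a.2)

open Classical in
/-- The mask of the block of `p`: the copies and the places which are queried by the machines of the
instances in `E` of scale at most the scale of `p`. -/
noncomputable def msk (g : List Bool → Bool) (P B : ∀ p : {a // a ∈ E}, Cp V p.1)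
    (p : ℕ × List Bool) : Mp V p :=
  (univ.filter fun u => ∃ a ∈ E, scl (lo V) a ≤ scl (lo V) p ∧ ∃ w ∈ tq V E O g P B a,
      ∃ v : VV (qs (sp (lo V) p)), w = pos (sp (lo V) p) (List.ofFn u) (List.ofFn v.2) v.1,
    univ.filter fun z => ∃ a ∈ E, scl (lo V) a ≤ scl (lo V) p ∧ ∃ w ∈ tq V E O g P B a,
      w = wps (sp (lo V) p) (List.ofFn z))

/-- The machine of the instance `a` queries a string of a table of large length whose value is not
`true`. -/
def Hit (g : List Bool → Bool) (P B : ∀ p : {a // a ∈ E}, Cp V p.1) (a : ℕ × List Bool) : Prop :=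
  ∃ (n k : ℕ) (x : Fin n → Bool) (q : Nn n k), 3 * scl (lo V) a ≤ n ∧
    astr n k x q ∈ tq V E O g P B a ∧ g (astr n k x q) = false

/-- The distribution of the contents of the block `p`. -/
noncomputable def lwX (g : List Bool → Bool) (B P : ∀ p : {a // a ∈ E}, Cp V p.1)
    (p : {a // a ∈ E}) (c : Cp V p.1) : ℝ :=
  mXp V p.1 (an V E O g P B p.1) (msk V E O g P B p.1) (B p) c

/-- The weight of the contents `P`, if the background is `B`. -/
noncomputable def wY (g : List Bool → Bool) (B P : ∀ p : {a // a ∈ E}, Cp V p.1) : ℝ :=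
  ∏ p, lwX V E O g B P p (P p)

open Classical in
/-- The same, but the blocks of scale larger than `n / 3` are those of the background. -/
noncomputable def wX (n : ℕ) (g : List Bool → Bool) (B P : ∀ p : {a // a ∈ E}, Cp V p.1) : ℝ :=
  ∏ p : {a // a ∈ E}, if 3 * scl (lo V) p.1 ≤ n then lwX V E O g B P p (P p)
    else if P p = B p then 1 else 0

/-- The number of the contents. -/
noncomputable def nC : ℝ := Fintype.card (∀ p : {a // a ∈ E}, Cp V p.1)

end

open Classical in
/-- The default oracle: the tables of all levels and lengths below `M`; the strings of the other tables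
have the value `true`, all other strings have the value `false`. -/
noncomputable def gzx (M : ℕ) (z : Za M) (w : List Bool) : Bool :=
  if h : ∃ y : Σ t : Fin M × Fin M, (Fin t.2.1 → Bool) × Nn t.2.1 t.1.1,
      w = astr y.1.2.1 y.1.1.1 y.2.1 y.2.2 then
    tbl (z h.choose.1) h.choose.2.1 h.choose.2.2
  else if ∃ (n k : ℕ) (x : Fin n → Bool) (q : Nn n k), w = astr n k x q then true else false

end Pool.Agent.H66.XP
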