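import Pool.Agent.H66.XP.Defs

/-!
# Exponential time in EQP: targets, part G (blocks)
-/

set_option autoImplicit false

namespace Pool.Agent.H66.XP

open Finset Pool.Agent.H6.NB Pool.Agent.H70.EH Pool.Agent.H78.XQ
open Pool.Agent.H70.OQ (ic)
open Pool.Agent.H66.IQ

/-- CLS: a formula in which some of the variables are fixed, as a formula in the other variables. -/
def T_CLS : Prop := ∀ (V : Type) [Fintype V] [DecidableEq V] (κ : V → Option Bool) (S d : ℕ)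
  (f : (V → Bool) → Bool), Cl V S d f → Cl {v // κ v = none} S d
    fun z => f fun v => if h : κ v = none then z ⟨v, h⟩ else (κ v).getD false

/-- KS2: the strings which extend `κ`. -/
def T_KS2 : Prop := ∀ (V : Type) [Fintype V] [DecidableEq V] (κ : V → Option Bool) (W : ℕ)
  (t : Tr V), nv κ (some true) ≤ W → ∃ t' : Tr {v // κ v = none}, t'.dp ≤ t.dp ∧
    (∀ S d, t.Cb S d → t'.Cb S d) ∧
    wm κ W t.ev = wm (fun _ => none) (W - nv κ (some true)) t'.ev ∧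
    mn (rst κ t.ev) = mn t'.ev

/-- GWK: a game whose leaves are formulas on strings of given weight which extend `κ`. -/
def T_GWK : Prop := ∀ (V : Type) [Fintype V] [DecidableEq V] [Nonempty V] (κ : V → Option Bool)
  (S d w W : ℕ) (δ : ℝ) (t : Tr V), 1 ≤ w → 0 < δ → 120 * δ * (128 * (w : ℝ)) ^ (d + 1) ≤ 1 →
  t.Cb S (d + 1) → ((Fintype.card V : ℝ) - nv κ none) ≤ δ / 4 * Fintype.card V →
  |(W : ℝ) - Fintype.card V / 2| ≤ δ * Fintype.card V →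
  |wm κ W t.ev - mn (rst κ t.ev)| ≤
    2 ^ t.dp * ((S : ℝ) + 1) ^ (d + 1) / 2 ^ w + 4 * Real.exp (-(Fintype.card V * δ ^ 2 / 4)) +
      4 * w * (15 * δ * (128 * (w : ℝ)) ^ (d + 1) +
        √(4 * (128 * (w : ℝ)) ^ (d + 1) / Fintype.card V)) +
      64 * (128 * (w : ℝ)) ^ (d + 1) / Fintype.card V

open Classical in
/-- SYC: the copies say the bit `b` with high probability, also if a few of them are replaced. -/
def T_SYC : Prop := ∀ r l q R n : ℕ, Sz r l q R n → ∀ (b : Bool)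
  (K : Finset (Fin (2 * l) → Bool)) (B : (Fin (2 * l) → Bool) → VV q → Bool),
  K.card ≤ 2 ^ (2 * r) →
  ∑ P : (Fin (2 * l) → Bool) → VV q → Bool, (∏ u, mv b q (P u)) *
    (if SayC q l b (ov K B P) then 0 else 1) ≤ 1 / 2 ^ l

/-- WEC: the weight of the correction string. -/
def T_WEC : Prop := ∀ r l q R n : ℕ, Sz r l q R n → ∀ (b : Bool)
  (P : (Fin (2 * l) → Bool) → VV q → Bool), SayC q l b P → ∃ W : ℕ,
    (W : ℝ) / 2 ^ n = (if b then 1 / 2 else 3 / 2) - kap q R P ∧ W ≤ 2 ^ n ∧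
    |(W : ℝ) - 2 ^ n / 2| ≤ 2 * R / 2 ^ l * 2 ^ n

/-- MRS: sums with respect to the distribution of a block, first over the correction string. -/
def T_MRS : Prop := ∀ r l q R n : ℕ, Sz r l q R n → ∀ (b : Bool) (K : Mk l n) (B : Bc q l n)
  (F : Bc q l n → ℝ), K.1.card ≤ 2 ^ (2 * r) → K.2.card ≤ 2 ^ (2 * r) → ∃ (W : _ → ℕ),
  (∀ P, SayC q l b P → W P ≤ 2 ^ n ∧ |(W P : ℝ) - 2 ^ n / 2| ≤ 2 * R / 2 ^ l * 2 ^ n ∧
    (ws (kp K B) (W P)).Nonempty) ∧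
  (∑ c, mX q l R n b K B c * F c = ∑ P : (Fin (2 * l) → Bool) → VV q → Bool,
    (∏ u, mv b q (P u)) * (ic (SayC q l b (ov K.1 B.1 P)) *
      wm (kp K B) (W (ov K.1 B.1 P)) fun h => F (ov K.1 B.1 P, h))) ∧
  ∑ c, m0X q l n K B c * F c = ∑ P : (Fin (2 * l) → Bool) → VV q → Bool,
    (∏ u, mv false q (P u)) * mn (rst (kp K B) fun h => F (ov K.1 B.1 P, h))

/-- BLC: a function does not see a block if it does not see a copy and the correction string. -/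
def T_BLC : Prop := ∀ r l q R n : ℕ, Sz r l q R n → ∀ (b : Bool) (K : Mk l n) (B : Bc q l n)
  (F : Bc q l n → ℝ) (e₁ e₂ : ℝ), K.1.card ≤ 2 ^ (2 * r) → K.2.card ≤ 2 ^ (2 * r) →
  (∀ c, 0 ≤ F c ∧ F c ≤ 1) → 0 ≤ e₁ → 0 ≤ e₂ →
  (∀ P u h, |∑ p, mv true q p * F (Function.update P u p, h) -
    ∑ p, mv false q p * F (Function.update P u p, h)| ≤ e₁) →
  (∀ (P : (Fin (2 * l) → Bool) → VV q → Bool) (W : ℕ),
    |(W : ℝ) - 2 ^ n / 2| ≤ 2 * R / 2 ^ l * 2 ^ n →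
    |wm (kp K B) W (fun h : (Fin n → Bool) → Bool => F (P, h)) -
      mn (rst (kp K B) fun h : (Fin n → Bool) → Bool => F (P, h))| ≤ e₂) →
  |∑ c, mX q l R n b K B c * F c - ∑ c, m0X q l n K B c * F c| ≤ 2 ^ (2 * l) * e₁ + 1 / 2 ^ l + e₂

/-- NUC: estimates for the error terms. -/
def T_NUC : Prop := ∀ r l q R n : ℕ, Sz r l q R n →
  120 * (2 * R / 2 ^ l : ℝ) * (128 * ((4 ^ r : ℕ) : ℝ)) ^ r ≤ 1 ∧
  (2 : ℝ) ^ (2 * r) ≤ 2 * R / 2 ^ l / 4 * 2 ^ n ∧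
  (2 : ℝ) ^ (2 * l) * ((128 * ((4 ^ r : ℕ) : ℝ)) ^ (2 * r) *
      (4003 * ((2 ^ r : ℕ) : ℝ) ^ 2 * (((2 ^ r : ℕ) : ℝ) + 1) * ((4 ^ r : ℕ) : ℝ) ^ 2 /
          2 ^ (q / 4) +
        (2 * 2 ^ q) ^ 2 * 2 ^ 2 ^ r * (((2 ^ 2 ^ r : ℕ) : ℝ) + 1) ^ r / 2 ^ 4 ^ r)) +
    1 / 2 ^ l +
    (2 ^ 2 ^ r * (((2 ^ 2 ^ r : ℕ) : ℝ) + 1) ^ r / 2 ^ 4 ^ r +
      4 * Real.exp (-(2 ^ n * (2 * R / 2 ^ l) ^ 2 / 4)) +
      4 * ((4 ^ r : ℕ) : ℝ) * (15 * (2 * R / 2 ^ l) * (128 * ((4 ^ r : ℕ) : ℝ)) ^ r +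
        √(4 * (128 * ((4 ^ r : ℕ) : ℝ)) ^ r / 2 ^ n)) +
      64 * (128 * ((4 ^ r : ℕ) : ℝ)) ^ r / 2 ^ n) ≤ (1 / 8) ^ r

/-- BFC: a game whose leaves are formulas does not see a block. -/
def T_BFC : Prop := ∀ r l q R n : ℕ, Sz r l q R n → ∀ (b : Bool) (K : Mk l n) (B : Bc q l n)
  (F : Bc q l n → ℝ), K.1.card ≤ 2 ^ (2 * r) → K.2.card ≤ 2 ^ (2 * r) →
  (∀ P u h, ∃ t : Tr (VV q), t.dp ≤ 2 ^ r ∧ t.Cb (2 ^ 2 ^ r) r ∧
    ∀ y, F (Function.update P u y, h) = t.ev y) →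
  (∀ P, ∃ t : Tr (Fin n → Bool), t.dp ≤ 2 ^ r ∧ t.Cb (2 ^ 2 ^ r) r ∧ ∀ h, F (P, h) = t.ev h) →
  |∑ c, mX q l R n b K B c * F c - ∑ c, m0X q l n K B c * F c| ≤ (1 / 8) ^ r

/-- MSX: the masses. -/
def T_MSX : Prop := ∀ r l q R n : ℕ, Sz r l q R n → ∀ (b : Bool) (K : Mk l n) (B : Bc q l n),
  K.1.card ≤ 2 ^ (2 * r) → K.2.card ≤ 2 ^ (2 * r) →
  (∀ c, 0 ≤ mX q l R n b K B c) ∧ ∑ c, mX q l R n b K B c ≤ 1 ∧
  1 - 1 / 2 ^ l ≤ ∑ c, mX q l R n b K B c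

open Classical in
/-- UNI: the uniform distribution of the contents which agree with `B` on the mask. -/
def T_UNI : Prop := ∀ (q l n : ℕ) (K : Mk l n) (B B' c : Bc q l n),
  (Ag K B B' → (∀ c, Ag K B c ↔ Ag K B' c) ∧
    ∀ (R : ℕ) (b : Bool), mX q l R n b K B c = mX q l R n b K B' c) ∧
  m0X q l n K B c = if Ag K B c then 1 / ((univ.filter fun c' => Ag K B c').card : ℝ) else 0

end Pool.Agent.H66.XP
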