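import Pool.Agent.H66.XP.TG

/-!
# Exponential time in EQP: targets, part H (the construction of the oracle)
-/

set_option autoImplicit false

namespace Pool.Agent.H66.XP

open Finset Pool.Agent.H6.NB Pool.Agent.H70.OQ Pool.Agent.H70.EH Pool.Agent.H70.EI Pool.Agent.H78.XQ
open Pool.Agent.H66.IP (Local ins sp dm IsZ scl)
open Pool.Agent.H66.IQ Pool.Agent.H66.AV
open Pool.Agent.H75.OM (BPos)

/-! ## Abstract hybrids -/

open Classical in
/-- HYM: masses. -/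
def T_HYM : Prop := ∀ (I : Type) [Fintype I] [DecidableEq I] (T : I → Type) [∀ i, Fintype (T i)]
  (ord : I → ℕ) (g : (∀ i, T i) → ∀ i, T i → ℝ),
  (∀ P i c, 0 ≤ g P i c) → (∀ P i, ∑ c, g P i c ≤ 1) →
  (∀ P i j p, ord i ≤ ord j → g (Function.update P j p) i = g P i) →
  ∑ P : (∀ i, T i), ∏ i, g P i (P i) ≤ 1 ∧
  (Nonempty (∀ i, T i) → ∀ ε : I → ℝ, (∀ i, 0 ≤ ε i ∧ ε i ≤ 1) →
    (∀ P i, 1 - ε i ≤ ∑ c, g P i c) →
    1 - ∑ i, ε i ≤ ∑ P : (∀ i, T i), ∏ i, g P i (P i)) ∧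
  ∀ (n : ℕ) (B : ∀ i, T i) (φ : (∀ i, T i) → ℝ), (∀ P, 0 ≤ φ P) →
    (∀ P j p, n < ord j → φ (Function.update P j p) = φ P) →
    ∑ P : (∀ i, T i), (∏ i, g P i (P i)) * φ P ≤
      ∑ P : (∀ i, T i), (∏ i, if ord i ≤ n then g P i (P i) else if P i = B i then 1 else 0) * φ P

open Classical in
/-- HYX: the large coordinates are replaced by those of the background. -/
def T_HYX : Prop := ∀ (I : Type) [Fintype I] [DecidableEq I] (T K : I → Type)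
  [∀ i, Fintype (T i)] (ord : I → ℕ) (m : ∀ i, Bool → K i → T i → T i → ℝ)
  (m₀ : ∀ i, K i → T i → T i → ℝ) (ag : ∀ i, K i → T i → T i → Prop)
  (b : (∀ i, T i) → (∀ i, T i) → I → Bool) (k : (∀ i, T i) → (∀ i, T i) → ∀ i, K i)
  (n : ℕ) (Φ : (∀ i, T i) → ℝ) (η : I → ℝ),
  (∀ i a κ B c, 0 ≤ m i a κ B c) → (∀ P B i, ∑ c, m i (b P B i) (k P B i) (B i) c ≤ 1) →
  (∀ i κ, Equivalence (ag i κ)) →
  (∀ i κ B c, m₀ i κ B c = if ag i κ B c then 1 / ((univ.filter fun c' => ag i κ B c').card : ℝ)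
    else 0) →
  (∀ i a κ B B' c, ag i κ B B' → m i a κ B c = m i a κ B' c) →
  (∀ P B i j p, ord i ≤ ord j →
    b (Function.update P j p) B i = b P B i ∧ k (Function.update P j p) B i = k P B i) →
  (∀ P B j B', ag j (k P B j) (B j) B' →
    b P (Function.update B j B') = b P B ∧ k P (Function.update B j B') = k P B) →
  (∀ i, 0 ≤ η i) →
  (∀ P B j, n < ord j → |∑ c, m j (b P B j) (k P B j) (B j) c * Φ (Function.update P j c) -
    ∑ c, m₀ j (k P B j) (B j) c * Φ (Function.update P j c)| ≤ η j) →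
  |∑ B : (∀ i, T i), ∑ P : (∀ i, T i), (∏ i, m i (b P B i) (k P B i) (B i) (P i)) * Φ P -
    ∑ B : (∀ i, T i), ∑ P : (∀ i, T i), (∏ i, if ord i ≤ n then
      m i (b P B i) (k P B i) (B i) (P i) else if P i = B i then 1 else 0) * Φ P| ≤
    Fintype.card (∀ i, T i) * ∑ i ∈ univ.filter (fun i => n < ord i), η i

/-! ## Machines and masks -/

/-- QDP: the queried strings. -/
def T_QDP : Prop := ∀ (O : List Bool → Bool) (T : DT), (qd O T).length ≤ T.depth ∧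
  ∀ O' : List Bool → Bool, (∀ w ∈ qd O T, O' w = O w) → qd O' T = qd O T ∧ T.eval O' = T.eval O

/-- CNX: numbers of instances and of queries. -/
def T_CNX : Prop := ∀ (V : ℕ → Exq) (E : Finset (ℕ × List Bool)) (r : ℕ),
  ∑ a ∈ E.filter (fun a => scl (lo V) a ≤ r), ((V a.1).tree a.2).depth ≤ 2 ^ (2 * r) ∧
  (E.filter fun a => scl (lo V) a = r).card ≤ 2 ^ r ∧ ∀ a, 20 ≤ scl (lo V) a

/-- MKX: properties of the masks. -/
def T_MKX : Prop := ∀ (V : ℕ → Exq) (E : Finset (ℕ × List Bool))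
  (O : (∀ p : {a // a ∈ E}, Cp V p.1) → (List Bool → Bool) → List Bool → Bool),
  IsZ (dm (lo V)) E O → ∀ (g : List Bool → Bool) (P B : ∀ p : {a // a ∈ E}, Cp V p.1),
  (∀ a, Sm V a (msk V E O g P B a)) ∧
  (∀ (a : ℕ × List Bool) (p : {a // a ∈ E}) (c : Cp V p.1), scl (lo V) a ≤ scl (lo V) p.1 →
    an V E O g (Function.update P p c) B a = an V E O g P B a ∧
    tq V E O g (Function.update P p c) B a = tq V E O g P B a ∧
    msk V E O g (Function.update P p c) B a = msk V E O g P B a) ∧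
  ∀ (p : {a // a ∈ E}) (c : Cp V p.1), Ag (msk V E O g P B p.1) (B p) c →
    (∀ a ∈ E, an V E O g P (Function.update B p c) a = an V E O g P B a ∧
      tq V E O g P (Function.update B p c) a = tq V E O g P B a) ∧
    ∀ a, msk V E O g P (Function.update B p c) a = msk V E O g P B a

/-- VWX: the answers relative to the final oracle. -/
def T_VWX : Prop := ∀ (V : ℕ → Exq) (E : Finset (ℕ × List Bool))
  (O : (∀ p : {a // a ∈ E}, Cp V p.1) → (List Bool → Bool) → List Bool → Bool),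
  IsZ (dm (lo V)) E O → ∀ (g : List Bool → Bool) (P B : ∀ p : {a // a ∈ E}, Cp V p.1),
  (∀ p : {a // a ∈ E}, Ag (msk V E O g P B p.1) (B p) (P p)) →
  ∀ a ∈ E, ¬ Hit V E O g P B a → ((V a.1).tree a.2).eval (O P g) = an V E O g P B a

/-- GLX: the dependence on the default oracle. -/
def T_GLX : Prop := ∀ (V : ℕ → Exq) (E : Finset (ℕ × List Bool))
  (O : (∀ p : {a // a ∈ E}, Cp V p.1) → (List Bool → Bool) → List Bool → Bool)
  (n : ℕ) (g g' : List Bool → Bool),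
  (∀ w, (∀ (n' k : ℕ) (x : Fin n' → Bool) (q : Nn n' k), n ≤ n' → w ≠ astr n' k x q) →
    g w = g' w) → ∀ P B : ∀ p : {a // a ∈ E}, Cp V p.1,
  (∀ a, 3 * scl (lo V) a ≤ n → tq V E O g P B a = tq V E O g' P B a) ∧
  wX V E O n g B P = wX V E O n g' B P

/-! ## Weights -/

/-- WMX: the masses of the weights. -/
def T_WMX : Prop := ∀ (V : ℕ → Exq) (E : Finset (ℕ × List Bool))
  (O : (∀ p : {a // a ∈ E}, Cp V p.1) → (List Bool → Bool) → List Bool → Bool),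
  IsZ (dm (lo V)) E O → ∀ (g : List Bool → Bool) (B : ∀ p : {a // a ∈ E}, Cp V p.1),
  (∀ P, 0 ≤ wY V E O g B P ∧ ∀ n, 0 ≤ wX V E O n g B P) ∧
  ∑ P, wY V E O g B P ≤ 1 ∧ (∀ n, ∑ P, wX V E O n g B P ≤ 1) ∧ 3 / 4 ≤ ∑ P, wY V E O g B P ∧
  ∀ (n : ℕ) (φ : (∀ p : {a // a ∈ E}, Cp V p.1) → ℝ), (∀ P, 0 ≤ φ P) →
    (∀ P p c, n < 3 * scl (lo V) p.1 → φ (Function.update P p c) = φ P) →
    ∑ P, wY V E O g B P * φ P ≤ ∑ P, wX V E O n g B P * φ P

/-- HYB: the blocks of large scale are replaced by those of the background. -/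
def T_HYB : Prop := ∀ (V : ℕ → Exq) (E : Finset (ℕ × List Bool))
  (O : (∀ p : {a // a ∈ E}, Cp V p.1) → (List Bool → Bool) → List Bool → Bool),
  IsZ (dm (lo V)) E O → ∀ (n : ℕ) (g : List Bool → Bool)
    (Φ : (∀ p : {a // a ∈ E}, Cp V p.1) → ℝ), 60 ≤ n →
  (∀ P (p : ℕ × List Bool) (h : p ∈ E) (b : Bool) (K : Mp V p) (B : Cp V p),
    n + 1 ≤ 3 * scl (lo V) p → Sm V p K →
    |∑ c, mXp V p b K B c * Φ (Function.update P ⟨p, h⟩ c) -
      ∑ c, m0Xp V p K B c * Φ (Function.update P ⟨p, h⟩ c)| ≤ (1 / 8) ^ scl (lo V) p) →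
  |∑ B, ∑ P, wY V E O g B P * Φ P - ∑ B, ∑ P, wX V E O n g B P * Φ P| ≤
    nC V E * (1 / 2) ^ (n / 2)

/-- PFX: a pair of protocols does not see a block. -/
def T_PFX : Prop := ∀ (V : ℕ → Exq) (k : ℕ), ∃ n₀, ∀ n ≥ n₀, ∀ G₁ G₂ : Prot k,
  G₁.Within (2 ^ (n / 4)) → G₂.Within (2 ^ (n / 4)) → ∀ (E : Finset (ℕ × List Bool))
    (O : (∀ p : {a // a ∈ E}, Cp V p.1) → (List Bool → Bool) → List Bool → Bool),
    IsZ (dm (lo V)) E O → ∀ (P : ∀ p : {a // a ∈ E}, Cp V p.1) (g₁ g₂ : List Bool → Bool)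
      (p : ℕ × List Bool) (h : p ∈ E) (b : Bool) (K : Mp V p) (B : Cp V p),
      n + 1 ≤ 3 * scl (lo V) p → Sm V p K →
      |∑ c, mXp V p b K B c * (G₁.val (O (Function.update P ⟨p, h⟩ c) g₁) *
          G₂.val (O (Function.update P ⟨p, h⟩ c) g₂)) -
        ∑ c, m0Xp V p K B c * (G₁.val (O (Function.update P ⟨p, h⟩ c) g₁) *
          G₂.val (O (Function.update P ⟨p, h⟩ c) g₂))| ≤ (1 / 8) ^ scl (lo V) p

/-- REX: the expectation of the test function. -/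
def T_REX : Prop := ∀ (V : ℕ → Exq) (k : ℕ), ∃ n₀, ∀ n ≥ n₀,
  ∀ (A C : (Fin n → Bool) → Prot k) (B' : ℕ), 1 ≤ B' → (∀ x, (A x).Within (2 ^ (n / 6))) →
  (∀ x, (C x).Within (2 ^ (n / 4))) → (∀ x O, 1 - (C x).val O = (1 - (A x).val O) ^ B') →
  ∀ ε : ℝ, 0 < ε → ∀ (E : Finset (ℕ × List Bool))
    (O : (∀ p : {a // a ∈ E}, Cp V p.1) → (List Bool → Bool) → List Bool → Bool),
    IsZ (dm (lo V)) E O → ∀ g : List Bool → Bool,
  ∑ z : Wn n k, ∑ B, ∑ P, wY V E O (ovl n k g (tbl z)) B P *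
      tst ε A C (fun T => O P (ovl n k g T)) z ≤
    Fintype.card (Wn n k) * nC V E * (32 / ε ^ 2 * (1 / 2) ^ (n / 3) +
      2 / ε * (1 / B' + 2 * (1 / 2) ^ (n / 3)) + (36 / ε ^ 2 + 4 / ε) * (1 / 2) ^ (n / 2))

/-! ## Hits -/

/-- PHZ: the values of the tables are rarely false. -/
def T_PHZ : Prop := ∀ (n k : ℕ) (x : Fin n → Bool) (q : Nn n k),
  (univ.filter fun z : Wn n k => tbl z x q = false).card * 2 ^ n ≤ Fintype.card (Wn n k)

/-- GZX: one of the tables is changed, and the values. -/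
def T_GZX : Prop := (∀ (M : ℕ) (z : Za M) (t : Fin M × Fin M) (c : Wn t.2.1 t.1.1),
    gzx M (Function.update z t c) = ovl t.2.1 t.1.1 (gzx M z) (tbl c)) ∧
  (∀ (M : ℕ) (z : Za M) (t : Fin M × Fin M) (x : Fin t.2.1 → Bool) (q : Nn t.2.1 t.1.1),
    gzx M z (astr t.2.1 t.1.1 x q) = tbl (z t) x q) ∧
  (∀ (M : ℕ) (z : Za M) (n k : ℕ) (x : Fin n → Bool) (q : Nn n k), ¬ (k < M ∧ n < M) →
    gzx M z (astr n k x q) = true) ∧
  ∀ (M : ℕ) (z z' : Za M) (w : List Bool),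
    (∀ (n k : ℕ) (x : Fin n → Bool) (q : Nn n k), w ≠ astr n k x q) → gzx M z w = gzx M z' w

open Classical in
/-- HTN: the probability of a hit of a table for the length `n`. -/
def T_HTN : Prop := ∀ (V : ℕ → Exq) (M n : ℕ) (E : Finset (ℕ × List Bool))
  (O : (∀ p : {a // a ∈ E}, Cp V p.1) → (List Bool → Bool) → List Bool → Bool),
  IsZ (dm (lo V)) E O →
  ∑ z : Za M, ∑ B, ∑ P, wY V E O (gzx M z) B P *
    (if ∃ a ∈ E, 3 * scl (lo V) a ≤ n ∧ ∃ (k : ℕ) (x : Fin n → Bool) (q : Nn n k),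
      astr n k x q ∈ tq V E O (gzx M z) P B a ∧ gzx M z (astr n k x q) = false then 1 else 0) ≤
    Fintype.card (Za M) * nC V E * (2 ^ (2 * (n / 3)) / 2 ^ n)

open Classical in
/-- HIT: the probability of a hit. -/
def T_HIT : Prop := ∀ (V : ℕ → Exq) (M : ℕ) (E : Finset (ℕ × List Bool))
  (O : (∀ p : {a // a ∈ E}, Cp V p.1) → (List Bool → Bool) → List Bool → Bool),
  IsZ (dm (lo V)) E O →
  ∑ z : Za M, ∑ B, ∑ P, wY V E O (gzx M z) B P *
    (if ∃ a ∈ E, Hit V E O (gzx M z) P B a then 1 else 0) ≤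
    Fintype.card (Za M) * nC V E * (1 / 4)

/-! ## The theorem -/

/-- NU2: numbers. -/
def T_NU2 : Prop := ∃ n₀, ∀ n ≥ n₀,
  32 / ((1 / 2 : ℝ) ^ (n / 64)) ^ 2 * (1 / 2) ^ (n / 3) +
      2 / (1 / 2) ^ (n / 64) * (1 / ((2 ^ (n / 32) : ℕ) : ℝ) + 2 * (1 / 2) ^ (n / 3)) +
      (36 / ((1 / 2 : ℝ) ^ (n / 64)) ^ 2 + 4 / (1 / 2) ^ (n / 64)) * (1 / 2) ^ (n / 2) ≤
    (1 / 2) ^ (n / 100)

/-- SUX: the expectation of the test function for all tables at once. -/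
def T_SUX : Prop := ∀ (V : ℕ → Exq) (k : ℕ) (G : List Bool → Prot k),
  (∃ n₀, ∀ x : List Bool, n₀ ≤ x.length → (G x).Within (2 ^ (x.length / 16))) → ∃ n₁, ∀ n ≥ n₁,
  ∃ A C : (Fin n → Bool) → Prot k,
    (∀ (Q : ((Fin n → Bool) → Nn n k → Bool) → List Bool → Bool) (z : Wn n k),
      0 ≤ tst ((1 / 2) ^ (n / 64)) A C Q z ∧
      ((∀ x, List.ofFn x ∈ alang k (Q (tbl z)) ↔ (z x).1 = true) →
        tst ((1 / 2) ^ (n / 64)) A C Q z < 1 →
        (rights G (Q (tbl z)) n : ℝ) ≤ (1 / 2 + (1 / 2) ^ (n / 64)) * 2 ^ n)) ∧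
    ∀ (M : ℕ) (hk : k < M) (hn : n < M) (E : Finset (ℕ × List Bool))
      (O : (∀ p : {a // a ∈ E}, Cp V p.1) → (List Bool → Bool) → List Bool → Bool),
      IsZ (dm (lo V)) E O →
      ∑ z : Za M, ∑ B, ∑ P, wY V E O (gzx M z) B P *
        tst ((1 / 2) ^ (n / 64)) A C (fun T => O P (ovl n k (gzx M z) T)) (z (⟨k, hk⟩, ⟨n, hn⟩)) ≤
      Fintype.card (Za M) * nC V E * (1 / 2) ^ (n / 100)

/-- FMY: the oracle for finitely many requirements. -/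
def T_FMY : Prop := ∀ (V : ℕ → Exq) (G : ℕ → (k : ℕ) × (List Bool → Prot k)),
  (∀ j, ∃ n₀, ∀ x : List Bool, n₀ ≤ x.length → ((G j).2 x).Within (2 ^ (x.length / 16))) →
  ∃ N : ℕ → ℕ, ∀ M : ℕ, ∃ O : List Bool → Bool,
    (∀ p, (sp (lo V) p).length ≤ M → GoodX V p O) ∧
    ∀ j < M, ∀ n < M, N j ≤ n →
      (rights (G j).2 O n : ℝ) ≤ (1 / 2 + (1 / 2) ^ (n / 64)) * 2 ^ n

/-- GDX: it depends on finitely many strings whether an instance is good. -/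
def T_GDX : Prop := ∀ (V : ℕ → Exq) (p : ℕ × List Bool), ∃ L, ∀ O O' : List Bool → Bool,
  (∀ w, w.length ≤ L → O w = O' w) → GoodX V p O → GoodX V p O'

/-- EXY: the exact algorithm outputs the answer of a good instance. -/
def T_EXY : Prop := ∀ (V : ℕ → Exq) (i : ℕ) (x : List Bool) (O : List Bool → Bool),
  GoodX V (i, x) O →
    (((V i).tree x).eval O = true → (exact (ins (V i).c i x)).prob O = 1) ∧
    (((V i).tree x).eval O = false → (exact (ins (V i).c i x)).prob O = 0)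

/-- FI7: the theorem. -/
def T_FI7 : Prop := ∀ (V : ℕ → Exq) (G : ℕ → (k : ℕ) × (List Bool → Prot k)),
  (∀ j, ∃ n₀, ∀ x : List Bool, n₀ ≤ x.length → ((G j).2 x).Within (2 ^ (x.length / 16))) →
  ∃ O : List Bool → Bool,
    (∀ i x, (((V i).tree x).eval O = true → (exact (ins (V i).c i x)).prob O = 1) ∧
      (((V i).tree x).eval O = false → (exact (ins (V i).c i x)).prob O = 0)) ∧
    ∀ j, ∃ n₀, ∀ n ≥ n₀, (rights (G j).2 O n : ℝ) ≤ (1 / 2 + (1 / 2) ^ (n / 64)) * 2 ^ n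

end Pool.Agent.H66.XP
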